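import Pool.Agent.H73.Pas4

set_option autoImplicit false

namespace Pool.Agent.Results.MP_9fb898_nt.Irreducible

open Polynomial

/-- For every even `n ≥ 2` the Pascalian polynomial
`P_n(z) = ∑_{k=0}^n C(n, ⌊(n-k)/2⌋) z^(n-k)` is irreducible in `ℚ[z]`. -/
theorem result (n : ℕ) (hn : Even n) (h2 : 2 ≤ n) :
    Irreducible (∑ k ∈ Finset.range (n + 1),
      Polynomial.C ((n.choose ((n - k) / 2) : ℕ) : ℚ) * Polynomial.X ^ (n - k) : Polynomial ℚ) :=
  Pool.Agent.H73.Pas.main n hn h2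

end Pool.Agent.Results.MP_9fb898_nt.Irreducible
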